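import Mathlib

set_option autoImplicit false

/-! Generic D-linear maps and subspaces over the ground field. -/

namespace Pool.Agent.W_MP_52423f_h49

open Module TensorProduct

/-- If `A` is injective then `A + t B` is injective for some `t ≠ 0`. -/
theorem exists_injective_add_smul {k E T : Type*} [Field k] [Infinite k]
    [AddCommGroup E] [Module k E] [FiniteDimensional k E] [AddCommGroup T] [Module k T]
    (A B : E →ₗ[k] T) (hA : Function.Injective A) :
    ∃ t : k, t ≠ 0 ∧ Function.Injective (A + t • B) := by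
  obtain ⟨L, hL⟩ := A.exists_leftInverse_of_injective (LinearMap.ker_eq_bot.2 hA)
  set N : End k E := L ∘ₗ B with hN
  have hfin : Set.Finite {μ : k | N.HasEigenvalue μ} := Module.End.finite_hasEigenvalue N
  have hfin2 : Set.Finite ({0} ∪ (fun x => -x) '' {μ : k | N.HasEigenvalue μ}) :=
    (Set.finite_singleton 0).union (hfin.image _)
  obtain ⟨μ, hμ⟩ := hfin2.exists_notMem
  have hμ0 : μ ≠ 0 := fun h => hμ (Or.inl h)
  have hμ1 : ¬ N.HasEigenvalue (-μ) := fun h => hμ (Or.inr ⟨-μ, h, by simp⟩)
  refine ⟨μ⁻¹, inv_ne_zero hμ0, ?_⟩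
  rw [injective_iff_map_eq_zero]
  intro e he
  have h1 : e + μ⁻¹ • N e = 0 := by
    have := congrArg L he
    simp only [LinearMap.add_apply, LinearMap.smul_apply, map_add, map_smul, map_zero] at this
    have h2 : L (A e) = e := by
      have := congrArg (fun f => f e) hL
      simpa using this
    rw [h2] at this
    simpa [hN] using this
  have h2 : N e = (-μ) • e := by
    have h3 : μ • (e + μ⁻¹ • N e) = 0 := by rw [h1, smul_zero]
    rw [smul_add, smul_smul, mul_inv_cancel₀ hμ0, one_smul] at h3
    rw [neg_smul]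
    exact eq_neg_of_add_eq_zero_right h3
  by_contra hne
  exact hμ1 (Module.End.hasEigenvalue_of_hasEigenvector
    ⟨Module.End.mem_eigenspace_iff.2 h2, hne⟩)

/-- Over a ring in which all nonzero elements are invertible there is a linear map
with a prescribed value at a nonzero vector. -/
theorem exists_linearMap_apply {D V T : Type*} [Ring D] [Nontrivial D]
    (hD : ∀ x : D, x ≠ 0 → IsUnit x) [AddCommGroup V] [Module D V] [AddCommGroup T] [Module D T]
    {v : V} (hv : v ≠ 0) (τ : T) : ∃ ψ : V →ₗ[D] T, ψ v = τ := by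
  let _ : DivisionRing D := DivisionRing.ofIsUnitOrEqZero
    (fun a => by
      by_cases h : a = 0
      · exact Or.inr h
      · exact Or.inl (hD a h))
  obtain ⟨g, -, hg⟩ := LinearMap.exists_extend_of_notMem (p := (⊥ : Submodule D V))
    (0 : (⊥ : Submodule D V) →ₗ[D] T) (v := v) (by simpa using hv) τ
  exact ⟨g, hg⟩

section
variable {k D V T : Type*} [Field k] [Infinite k] [Ring D] [Nontrivial D] [Algebra k D]
  [AddCommGroup V] [Module k V] [Module D V] [IsScalarTower k D V]
  [AddCommGroup T] [Module k T] [Module D T] [IsScalarTower k D T]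

theorem step (hD : ∀ x : D, x ≠ 0 → IsUnit x) [FiniteDimensional k T]
    (W : Submodule k V) [FiniteDimensional k W]
    (hW : finrank k W ≤ finrank k T) (φ : V →ₗ[D] T)
    (h : finrank k (W.map (φ.restrictScalars k)) < finrank k W) :
    ∃ φ' : V →ₗ[D] T, finrank k (W.map (φ.restrictScalars k)) <
      finrank k (W.map (φ'.restrictScalars k)) := by
  set f : W →ₗ[k] T := (φ.restrictScalars k) ∘ₗ W.subtype with hf
  have hrange : LinearMap.range f = W.map (φ.restrictScalars k) := by
    rw [hf, LinearMap.range_comp, Submodule.range_subtype]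
  have hrn := LinearMap.finrank_range_add_finrank_ker f
  rw [hrange] at hrn
  have hker : LinearMap.ker f ≠ ⊥ := by
    intro h0
    rw [h0, finrank_bot] at hrn
    omega
  obtain ⟨k0, hk0, hk0ne⟩ := Submodule.exists_mem_ne_zero_of_ne_bot hker
  have hk0V : (k0 : V) ≠ 0 := fun h => hk0ne (by ext; simpa using h)
  have hφk0 : φ (k0 : V) = 0 := by
    have := LinearMap.mem_ker.1 hk0
    simpa [hf] using this
  have hI : W.map (φ.restrictScalars k) ≠ ⊤ := by
    intro h0
    rw [h0, finrank_top] at h
    omega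
  obtain ⟨τ, hτ⟩ : ∃ τ : T, τ ∉ W.map (φ.restrictScalars k) := by
    by_contra hcon
    push Not at hcon
    exact hI (Submodule.eq_top_iff'.2 hcon)
  obtain ⟨ψ, hψ⟩ := exists_linearMap_apply hD hk0V τ
  obtain ⟨C, hC⟩ := Submodule.exists_isCompl (LinearMap.ker f)
  set A : (C × k) →ₗ[k] T := (f ∘ₗ C.subtype).coprod (LinearMap.toSpanSingleton k T τ) with hA
  set B : (C × k) →ₗ[k] T :=
    (((ψ.restrictScalars k) ∘ₗ W.subtype) ∘ₗ C.subtype).coprod 0 with hB
  have hAinj : Function.Injective A := by
    rw [injective_iff_map_eq_zero]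
    rintro ⟨c, a⟩ hca
    have h1 : f (c : W) + a • τ = 0 := by simpa [hA] using hca
    have ha : a = 0 := by
      by_contra hne
      apply hτ
      have h2 : τ = a⁻¹ • (-(f (c : W))) := by
        rw [← eq_neg_of_add_eq_zero_right h1, smul_smul, inv_mul_cancel₀ hne, one_smul]
      rw [h2, ← hrange]
      exact Submodule.smul_mem _ _ (Submodule.neg_mem _ ⟨_, rfl⟩)
    subst ha
    rw [zero_smul, add_zero] at h1
    have h3 : (c : W) ∈ LinearMap.ker f ⊓ C := ⟨LinearMap.mem_ker.2 h1, c.2⟩
    rw [hC.inf_eq_bot] at h3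
    have h4 : (c : W) = 0 := by simpa using h3
    have h5 : c = 0 := by ext; simpa using congrArg (Subtype.val) h4
    rw [h5]
    rfl
  obtain ⟨t, ht0, ht⟩ := exists_injective_add_smul A B hAinj
  refine ⟨φ + t • ψ, ?_⟩
  have hle : LinearMap.range (A + t • B) ≤ W.map ((φ + t • ψ).restrictScalars k) := by
    rintro _ ⟨⟨c, a⟩, rfl⟩
    refine ⟨((c : W) : V) + (t⁻¹ * a) • (k0 : V), ?_, ?_⟩
    · exact W.add_mem (c : W).2 (W.smul_mem _ k0.2)
    · simp only [hA, hB, hf, LinearMap.add_apply, LinearMap.smul_apply, LinearMap.coprod_apply,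
        LinearMap.comp_apply, LinearMap.coe_restrictScalars, Submodule.subtype_apply,
        LinearMap.toSpanSingleton_apply, LinearMap.zero_apply, add_zero, map_add]
      have e1 : φ ((t⁻¹ * a) • (k0 : V)) = 0 := by
        rw [LinearMap.map_smul_of_tower, hφk0, smul_zero]
      have e2 : ψ ((t⁻¹ * a) • (k0 : V)) = (t⁻¹ * a) • τ := by
        rw [LinearMap.map_smul_of_tower, hψ]
      rw [e1, e2, smul_smul, ← mul_assoc, mul_inv_cancel₀ ht0, one_mul]
      abel
  have hfr : finrank k (LinearMap.range (A + t • B)) = finrank k C + 1 := by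
    rw [LinearMap.finrank_range_of_inj ht, finrank_prod, finrank_self]
  have hCr : finrank k C = finrank k (W.map (φ.restrictScalars k)) := by
    have := Submodule.finrank_add_eq_of_isCompl hC
    omega
  have := Submodule.finrank_mono hle
  omega

theorem exists_injOn (hD : ∀ x : D, x ≠ 0 → IsUnit x) [FiniteDimensional k T]
    (W : Submodule k V) [FiniteDimensional k W]
    (hW : finrank k W ≤ finrank k T) :
    ∃ φ : V →ₗ[D] T, ∀ w ∈ W, φ w = 0 → w = 0 := by
  have key : ∀ n : ℕ, n ≤ finrank k W →
      ∃ φ : V →ₗ[D] T, n ≤ finrank k (W.map (φ.restrictScalars k)) := by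
    intro n
    induction n with
    | zero => exact fun _ => ⟨0, Nat.zero_le _⟩
    | succ n ih =>
      intro hn
      obtain ⟨φ, hφ⟩ := ih (by omega)
      by_cases h : finrank k (W.map (φ.restrictScalars k)) < finrank k W
      · obtain ⟨φ', hφ'⟩ := step hD W hW φ h
        exact ⟨φ', by omega⟩
      · exact ⟨φ, by omega⟩
  obtain ⟨φ, hφ⟩ := key _ le_rfl
  refine ⟨φ, fun w hw h0 => ?_⟩
  set f : W →ₗ[k] T := (φ.restrictScalars k) ∘ₗ W.subtype with hf
  have hrange : LinearMap.range f = W.map (φ.restrictScalars k) := by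
    rw [hf, LinearMap.range_comp, Submodule.range_subtype]
  have hrn := LinearMap.finrank_range_add_finrank_ker f
  rw [hrange] at hrn
  have hk : finrank k (LinearMap.ker f) = 0 := by omega
  have hk2 : LinearMap.ker f = ⊥ := Submodule.finrank_eq_zero.1 hk
  have : (⟨w, hw⟩ : W) ∈ LinearMap.ker f := by
    rw [LinearMap.mem_ker]
    simpa [hf] using h0
  rw [hk2] at this
  simpa using this

end

end Pool.Agent.W_MP_52423f_h49
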