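import Mathlib
import Pool.Agent.W_MP_52423f_h49.Core

set_option autoImplicit false

/-! From one good linear map to a nonzero polynomial condition. -/

namespace Pool.Agent.W_MP_52423f_h49

open Module TensorProduct

/-- If some `k`-combination of the columns makes the family independent, then the generic
combination does, outside the zero set of one nonzero polynomial over `k`. -/
theorem exists_poly {k T : Type} [Field k] [AddCommGroup T] [Module k T]
    {N m : ℕ} (t : Fin N → Fin m → T) (q : Fin N → k)
    (h : LinearIndependent k (fun j => ∑ i, q i • t i j)) :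
    ∃ F : MvPolynomial (Fin N) k, F ≠ 0 ∧ ∀ (K : Type) [Field K] [Algebra k K] (x : Fin N → K),
      MvPolynomial.aeval x F ≠ 0 → LinearIndependent K (fun j => ∑ i, x i ⊗ₜ[k] t i j) := by
  classical
  obtain ⟨L, hL⟩ : ∃ L : T →ₗ[k] (Fin m → k), ∀ j, L (∑ i, q i • t i j) = Pi.single j 1 := by
    have h1 : LinearMap.ker (Finsupp.linearCombination k (fun j => ∑ i, q i • t i j)) = ⊥ :=
      linearIndependent_iff_ker.1 h
    obtain ⟨g, hg⟩ := LinearMap.exists_leftInverse_of_injective _ h1
    refine ⟨(Finsupp.linearEquivFunOnFinite k k (Fin m)).toLinearMap ∘ₗ g, fun j => ?_⟩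
    have h2 := congrArg (fun f => f (Finsupp.single j 1)) hg
    simp only [LinearMap.comp_apply, Finsupp.linearCombination_single, one_smul,
      LinearMap.id_apply] at h2
    rw [LinearMap.comp_apply, h2]
    ext l
    simp [Finsupp.single_apply, Pi.single_apply, eq_comm]
  let P : Matrix (Fin m) (Fin m) (MvPolynomial (Fin N) k) :=
    fun j l => ∑ i, MvPolynomial.X i * MvPolynomial.C (L (t i j) l)
  have hP : ∀ (K : Type) [Field K] [Algebra k K] (x : Fin N → K),
      MvPolynomial.aeval x P.det =
        (Matrix.of fun (j l : Fin m) => ∑ i, x i * algebraMap k K (L (t i j) l)).det := by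
    intro K _ _ x
    rw [AlgHom.map_det]
    congr 1
    ext j l
    rw [AlgHom.mapMatrix_apply, Matrix.map_apply]
    simp [P]
  refine ⟨P.det, ?_, ?_⟩
  · intro h0
    have h1 := hP k q
    rw [h0, map_zero] at h1
    have h2 : (Matrix.of fun (j l : Fin m) => ∑ i, q i * algebraMap k k (L (t i j) l)) = 1 := by
      ext j l
      have h3 := congrFun (hL j) l
      rw [map_sum, Finset.sum_apply] at h3
      simp only [map_smul, Pi.smul_apply, smul_eq_mul] at h3
      simp only [Matrix.of_apply, Algebra.algebraMap_self, RingHom.id_apply]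
      rw [h3, Matrix.one_apply, Pi.single_apply]
      by_cases hjl : j = l
      · simp [hjl]
      · simp [hjl, Ne.symm hjl]
    rw [h2, Matrix.det_one] at h1
    exact zero_ne_one h1
  · intro K _ _ x hx
    rw [hP] at hx
    have h1 := Matrix.linearIndependent_rows_of_det_ne_zero hx
    let LK : K ⊗[k] T →ₗ[K] (Fin m → K) := LinearMap.pi fun l =>
      (TensorProduct.AlgebraTensorModule.rid k K K).toLinearMap ∘ₗ
        (LinearMap.baseChange K ((LinearMap.proj l) ∘ₗ L))
    refine LinearIndependent.of_comp LK ?_
    have h2 : (⇑LK ∘ fun j => ∑ i, x i ⊗ₜ[k] t i j) =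
        fun j => (Matrix.of fun (j l : Fin m) => ∑ i, x i * algebraMap k K (L (t i j) l)) j := by
      funext j l
      simp [LK, Algebra.smul_def, mul_comm]
    rw [h2]
    exact h1

end Pool.Agent.W_MP_52423f_h49
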