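import Mathlib
import Pool.Agent.W_MP_52423f_h49.Poly

set_option autoImplicit false

/-! Both directions. -/

namespace Pool.Agent.W_MP_52423f_h49

open Module TensorProduct

theorem forward {k D V T : Type} [Field k] [Infinite k] [Ring D] [Nontrivial D] [Algebra k D]
    [AddCommGroup V] [Module k V] [Module D V] [IsScalarTower k D V]
    [AddCommGroup T] [Module k T] [Module D T] [IsScalarTower k D T] [FiniteDimensional k T]
    (hD : ∀ x : D, x ≠ 0 → IsUnit x) {N : ℕ} (φ : Basis (Fin N) k (V →ₗ[D] T))
    {m : ℕ} (w : Fin m → V) (hw : LinearIndependent k w) (hm : m ≤ finrank k T) :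
    ∃ F : MvPolynomial (Fin N) k, F ≠ 0 ∧ ∀ (K : Type) [Field K] [Algebra k K] (x : Fin N → K),
      MvPolynomial.aeval x F ≠ 0 →
        LinearIndependent K (fun j => ∑ i, x i ⊗ₜ[k] φ i (w j)) := by
  have : FiniteDimensional k (Submodule.span k (Set.range w)) :=
    FiniteDimensional.span_of_finite k (Set.finite_range w)
  obtain ⟨ψ, hψ⟩ := exists_injOn (T := T) hD (Submodule.span k (Set.range w))
    (by rw [finrank_span_eq_card hw, Fintype.card_fin]; exact hm)
  refine exists_poly (fun i j => φ i (w j)) (fun i => φ.repr ψ i) ?_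
  have h1 : (fun j => ∑ i, φ.repr ψ i • φ i (w j)) = fun j => ψ (w j) := by
    funext j
    have h2 : (∑ i, φ.repr ψ i • φ i) (w j) = ψ (w j) := by rw [φ.sum_repr ψ]
    rw [LinearMap.sum_apply] at h2
    exact h2
  rw [h1]
  have h3 : LinearIndependent k ((ψ.restrictScalars k) ∘ w) := by
    refine hw.map ?_
    rw [Submodule.disjoint_def]
    intro v hv hv0
    exact hψ v hv hv0
  exact h3

theorem isUnit_of_smul_surjective {k D T : Type} [Field k] [Ring D] [Algebra k D]
    [FiniteDimensional k D] [AddCommGroup T] [Module k T] [Module D T] [IsScalarTower k D T]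
    [FiniteDimensional k T] [FaithfulSMul D T] (x : D)
    (hx : Function.Surjective (fun t : T => x • t)) : IsUnit x := by
  have hs : Function.Surjective (Algebra.lsmul k k T x) := hx
  have hinj : Function.Injective (Algebra.lsmul k k T x) :=
    LinearMap.injective_iff_surjective.2 hs
  have hLinj : Function.Injective (LinearMap.mulLeft k x) := by
    rw [injective_iff_map_eq_zero]
    intro y hy
    have hy' : x * y = 0 := hy
    apply FaithfulSMul.eq_of_smul_eq_smul (α := T)
    intro t
    rw [zero_smul]
    apply hinj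
    rw [map_zero]
    show x • (y • t) = 0
    rw [smul_smul, hy', zero_smul]
  obtain ⟨y, hy⟩ := LinearMap.injective_iff_surjective.1 hLinj 1
  have hy' : x * y = 1 := hy
  have hyx : y * x = 1 := by
    apply hLinj
    show x * (y * x) = x * 1
    rw [← mul_assoc, hy', one_mul, mul_one]
  exact ⟨⟨x, y, hy', hyx⟩, rfl⟩

theorem backward {k D T : Type} [Field k] [Ring D] [Algebra k D]
    [FiniteDimensional k D] [AddCommGroup T] [Module k T] [Module D T] [IsScalarTower k D T]
    [FiniteDimensional k T] [FaithfulSMul D T]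
    (H : ∀ (r N : ℕ) (φ : Basis (Fin N) k ((Fin r → D) →ₗ[D] T)) (w : Fin r → (Fin r → D)),
      LinearIndependent k w → r ≤ finrank k T →
      ∃ F : MvPolynomial (Fin N) k, F ≠ 0 ∧ ∀ (K : Type) [Field K] [Algebra k K] (x : Fin N → K),
        MvPolynomial.aeval x F ≠ 0 →
          LinearIndependent K (fun j => ∑ i, x i ⊗ₜ[k] φ i (w j)))
    (x : D) (hx : x ≠ 0) : IsUnit x := by
  classical
  apply isUnit_of_smul_surjective (k := k) (T := T)
  set r := finrank k T with hr
  have hfin : FiniteDimensional k ((Fin r → D) →ₗ[D] T) :=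
    Module.Finite.of_injective (LinearMap.restrictScalarsₗ k D (Fin r → D) T k)
      (LinearMap.restrictScalars_injective k)
  obtain ⟨N, ⟨φ⟩⟩ : ∃ N : ℕ, Nonempty (Basis (Fin N) k ((Fin r → D) →ₗ[D] T)) :=
    ⟨_, ⟨finBasis k ((Fin r → D) →ₗ[D] T)⟩⟩
  let w : Fin r → (Fin r → D) := fun j => Pi.single j x
  have hw : LinearIndependent k w := by
    rw [Fintype.linearIndependent_iff]
    intro g hg i
    have h1 := congrFun hg i
    simp only [w, Finset.sum_apply, Pi.smul_apply, Pi.zero_apply] at h1
    rw [Finset.sum_eq_single i (fun j _ hj => by rw [Pi.single_eq_of_ne (Ne.symm hj), smul_zero])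
      (fun h => absurd (Finset.mem_univ i) h), Pi.single_eq_same] at h1
    exact (smul_eq_zero.1 h1).resolve_right hx
  obtain ⟨F, hF0, hF⟩ := H r _ φ w hw le_rfl
  let K := FractionRing (MvPolynomial (Fin N) k)
  have hinj : Function.Injective (algebraMap (MvPolynomial (Fin N) k) K) :=
    IsFractionRing.injective _ _
  let y : Fin N → K := fun i => algebraMap (MvPolynomial (Fin N) k) K (MvPolynomial.X i)
  have hae : MvPolynomial.aeval y F = algebraMap (MvPolynomial (Fin N) k) K F := by
    have h1 : MvPolynomial.aeval y =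
        (Algebra.ofId (MvPolynomial (Fin N) k) K).restrictScalars k := by
      apply MvPolynomial.algHom_ext
      intro i
      simp [y, Algebra.ofId_apply]
    rw [h1]
    rfl
  have hli := hF K y (by
    rw [hae]
    intro h0
    exact hF0 (hinj (by rw [h0, map_zero])))
  by_contra hns
  have hrange : LinearMap.range (Algebra.lsmul k k T x) < ⊤ := by
    rw [lt_top_iff_ne_top]
    intro h
    apply hns
    intro t
    have : t ∈ LinearMap.range (Algebra.lsmul k k T x) := by rw [h]; trivial
    obtain ⟨s, hs⟩ := this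
    exact ⟨s, hs⟩
  obtain ⟨f, hf0, hf⟩ := Submodule.exists_le_ker_of_lt_top _ hrange
  let fK : K ⊗[k] T →ₗ[K] K :=
    (TensorProduct.AlgebraTensorModule.rid k K K).toLinearMap ∘ₗ (LinearMap.baseChange K f)
  have hfx : ∀ t : T, f (x • t) = 0 := fun t => hf ⟨t, rfl⟩
  have hzero : ∀ j, fK (∑ i, y i ⊗ₜ[k] φ i (w j)) = 0 := by
    intro j
    rw [map_sum]
    refine Finset.sum_eq_zero fun i _ => ?_
    have h1 : φ i (w j) = x • φ i (Pi.single j 1) := by
      rw [← map_smul]
      congr 1
      ext l
      by_cases hl : l = j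
      · subst hl
        simp [w]
      · simp [w, hl]
    have h2 : f (φ i (w j)) = 0 := by rw [h1]; exact hfx _
    simp only [fK, LinearMap.comp_apply, LinearMap.baseChange_tmul, h2, tmul_zero, map_zero]
  have hrpos : 0 < r := by
    by_contra h0
    have h1 : finrank k T = 0 := by omega
    apply hf0
    ext t
    have : Subsingleton T := finrank_zero_iff.1 h1
    rw [Subsingleton.elim t 0, map_zero, map_zero]
  have : Nonempty (Fin r) := ⟨⟨0, hrpos⟩⟩
  have hspan := hli.span_eq_top_of_card_eq_finrank (by
    rw [Fintype.card_fin, Module.finrank_baseChange])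
  have hfK0 : fK = 0 := by
    have h1 : (⊤ : Submodule K (K ⊗[k] T)) ≤ LinearMap.ker fK := by
      rw [← hspan, Submodule.span_le]
      rintro _ ⟨j, rfl⟩
      exact hzero j
    ext t
    have := h1 (x := 1 ⊗ₜ[k] t) trivial
    simpa using this
  apply hf0
  ext t
  have h1 := congrArg (fun g => g ((1 : K) ⊗ₜ[k] t)) hfK0
  have h2 : algebraMap k K (f t) = 0 := by
    simpa [fK, Algebra.smul_def] using h1
  exact (map_eq_zero (algebraMap k K)).1 h2

end Pool.Agent.W_MP_52423f_h49
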